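import Pool.Agent.R32.BipDag.Lower

set_option autoImplicit false

/-! `A_p(n) ≥ n²/196` and `A_s(n) ≥ n²/196` for every `n ≥ 40`. -/

namespace Pool.Agent.Results.MP_9caa86_co.QuadraticArea

open Pool.Agent.R32.BipDag

lemma P_bound (v : ℕ) : |(P v).1| ≤ 12 * v + 12 ∧ |(P v).2| ≤ 12 * v + 12 := by
  obtain ⟨j, r, hr, rfl⟩ := exists_dm v
  interval_cases r <;> simp only [P0, P1, P2, P3, P4, P5, P6] <;> push_cast <;>
    constructor <;> rw [abs_le] <;> constructor <;> omega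

lemma drawing_fits (n : ℕ) : (drawing n).Fits (24 * n + 24) (24 * n + 24) := by
  refine ⟨-(12 * n + 12), -(12 * n + 12), fun v => ?_, fun u v _ p hp => ?_⟩
  · have h1 := P_bound v
    have h2 := v.2
    rw [abs_le, abs_le] at h1
    show _ ≤ (P v).1 ∧ (P v).1 ≤ _ ∧ _ ≤ (P v).2 ∧ (P v).2 ≤ _
    push_cast
    refine ⟨?_, ?_, ?_, ?_⟩ <;> omega
  · simp [drawing] at hp

lemma area_ge {n m : ℕ} (hm : 1 ≤ m) (hn : 7 * (2 * m + 1) ≤ n) :
    ∀ (D : UpwardDrawing (G n)) (W H : ℕ), D.Fits W H → (2 * m) ^ 2 ≤ W * H := by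
  intro D W H hF
  obtain ⟨h1, h2⟩ := size_ge D (2 * m + 1) m W H hn hm le_rfl hF
  calc (2 * m) ^ 2 = (2 * m) * (2 * m) := by ring
    _ ≤ W * H := Nat.mul_le_mul h1 h2

lemma poly_ge {n m : ℕ} (hm : 1 ≤ m) (hn : 7 * (2 * m + 1) ≤ n) : (2 * m) ^ 2 ≤ Ap n := by
  have hmem : (2 * m) ^ 2 ≤ minAreaPoly (G n) := by
    have hne : {a : ℕ | ∃ (D : UpwardDrawing (G n)) (W H : ℕ), D.Fits W H ∧ a = W * H}.Nonempty :=
      ⟨_, drawing n, _, _, drawing_fits n, rfl⟩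
    obtain ⟨D, W, H, hF, hE⟩ := Nat.sInf_mem hne
    rw [minAreaPoly, hE]
    exact area_ge hm hn D W H hF
  refine hmem.trans (le_csSup ?_ ⟨G n, G_bip n, ⟨drawing n⟩, rfl⟩)
  refine Set.Finite.bddAbove ((Set.finite_range fun R : Fin n → Fin n → Prop =>
    minAreaPoly R).subset ?_)
  rintro a ⟨R, -, -, rfl⟩
  exact ⟨R, rfl⟩

lemma straight_ge {n m : ℕ} (hm : 1 ≤ m) (hn : 7 * (2 * m + 1) ≤ n) : (2 * m) ^ 2 ≤ As n := by
  have hmem : (2 * m) ^ 2 ≤ minAreaStraight (G n) := by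
    have hne : {a : ℕ | ∃ (D : UpwardDrawing (G n)) (W H : ℕ), D.Straight ∧ D.Fits W H ∧
        a = W * H}.Nonempty :=
      ⟨_, drawing n, _, _, drawing_straight n, drawing_fits n, rfl⟩
    obtain ⟨D, W, H, -, hF, hE⟩ := Nat.sInf_mem hne
    rw [minAreaStraight, hE]
    exact area_ge hm hn D W H hF
  refine hmem.trans (le_csSup ?_ ⟨G n, G_bip n, ⟨drawing n, drawing_straight n⟩, rfl⟩)
  refine Set.Finite.bddAbove ((Set.finite_range fun R : Fin n → Fin n → Prop =>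
    minAreaStraight R).subset ?_)
  rintro a ⟨R, -, -, rfl⟩
  exact ⟨R, rfl⟩

lemma arith {n : ℕ} (hn : 40 ≤ n) : ∃ m, 1 ≤ m ∧ 7 * (2 * m + 1) ≤ n ∧ n ≤ 14 * (2 * m) := by
  refine ⟨(n / 7 - 1) / 2, ?_, ?_, ?_⟩ <;> omega

/-- For every `n ≥ 40`, `A_p(n) ≥ n²/196` (so, with the known upper bound `O(n²)`,
`A_p(n) = Θ(n²)`), and also `A_s(n) ≥ n²/196`.  Explicitly: for every `n` there is an `n`-vertex
bipartite DAG with a straight-line upward planar grid drawing such that every poly-line upward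
planar grid drawing of it has width and height at least `2 m`, for every `m ≥ 1` with
`7 (2 m + 1) ≤ n`. -/
theorem result :
    (∀ n : ℕ, 40 ≤ n → n ^ 2 ≤ 196 * Ap n ∧ n ^ 2 ≤ 196 * As n) ∧
    (∀ n : ℕ, ∃ R : Fin n → Fin n → Prop, IsBipartiteDag R ∧
      (∃ D : UpwardDrawing R, D.Straight) ∧
      ∀ (D : UpwardDrawing R) (W H m : ℕ), 1 ≤ m → 7 * (2 * m + 1) ≤ n → D.Fits W H →
        2 * m ≤ W ∧ 2 * m ≤ H) := by
  refine ⟨fun n hn => ?_, fun n => ⟨G n, G_bip n, ⟨drawing n, drawing_straight n⟩,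
    fun D W H m hm hn hF => size_ge D (2 * m + 1) m W H hn hm le_rfl hF⟩⟩
  obtain ⟨m, h1, h2, h3⟩ := arith hn
  have h4 : n ^ 2 ≤ 196 * (2 * m) ^ 2 := by
    calc n ^ 2 ≤ (14 * (2 * m)) ^ 2 := Nat.pow_le_pow_left h3 2
      _ = 196 * (2 * m) ^ 2 := by ring
  exact ⟨h4.trans (Nat.mul_le_mul_left _ (poly_ge h1 h2)),
    h4.trans (Nat.mul_le_mul_left _ (straight_ge h1 h2))⟩

end Pool.Agent.Results.MP_9caa86_co.QuadraticArea
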